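import Pool.Agent.Helper68.LM.St

/-!
# Project LM, module HLW: Hardy-Littlewood, weak type (1,1)
-/

set_option autoImplicit false

open MeasureTheory Set Filter Topology
open scoped ENNReal RealInnerProductSpace FourierTransform

namespace Pool.Agent.Helper27.LM

open Pool.Agent.Helper68.LM

/-- scaling of the average over a ball -/
theorem ball_scale (f : Pl → ℝ≥0∞) (hf : Measurable f) (ρ c : ℝ) (hc : 0 < c) (x : Pl) :
    ∫⁻ w in Metric.closedBall (0 : Pl) ρ, f (x - c • w) =
      ENNReal.ofReal ((c ^ 2)⁻¹) * ∫⁻ z in Metric.closedBall x (ρ * c), f z := by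
  set F : Pl → ℝ≥0∞ := (Metric.closedBall x (ρ * c)).indicator f with hF
  have hFm : Measurable F := hf.indicator Metric.isClosed_closedBall.measurableSet
  have h1 : ∫⁻ w in Metric.closedBall (0 : Pl) ρ, f (x - c • w) = ∫⁻ w : Pl, F (x - c • w) := by
    rw [← lintegral_indicator Metric.isClosed_closedBall.measurableSet]
    refine lintegral_congr fun w => ?_
    have h2 : w ∈ Metric.closedBall (0 : Pl) ρ ↔ x - c • w ∈ Metric.closedBall x (ρ * c) := by
      rw [mem_closedBall_zero_iff, Metric.mem_closedBall, dist_eq_norm, sub_sub_cancel_left,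
        norm_neg, norm_smul, Real.norm_of_nonneg hc.le, mul_comm ρ c]
      exact (mul_le_mul_iff_right₀ hc).symm
    by_cases hw : w ∈ Metric.closedBall (0 : Pl) ρ
    · rw [indicator_of_mem hw, hF, indicator_of_mem (h2.1 hw)]
    · rw [indicator_of_notMem hw, hF, indicator_of_notMem (fun h => hw (h2.2 h))]
  have h3 : ∫⁻ w : Pl, F (x - c • w) = ∫⁻ v : Pl, F (x - v) ∂(Measure.map (c • ·) volume) := by
    have hm : Measurable (fun v : Pl => F (x - v)) :=
      hFm.comp (measurable_const.sub measurable_id)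
    rw [lintegral_map hm (measurable_const_smul c)]
  rw [h1, h3, Measure.map_addHaar_smul volume hc.ne', finrank_euclideanSpace_fin,
    lintegral_smul_measure, lintegral_sub_left_eq_self, smul_eq_mul, hF,
    lintegral_indicator Metric.isClosed_closedBall.measurableSet, abs_of_nonneg (by positivity)]

theorem hHLW : StHLW := by
  intro ρ hρ
  set V : ℝ := (volume (Metric.ball (0 : Pl) 1)).toReal with hV
  have hV0 : 0 ≤ V := ENNReal.toReal_nonneg
  have hVfin : volume (Metric.ball (0 : Pl) 1) ≠ ∞ := measure_ball_lt_top.ne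
  have hVe : volume (Metric.ball (0 : Pl) 1) = ENNReal.ofReal V := (ENNReal.ofReal_toReal hVfin).symm
  refine ⟨25 * ρ ^ 2 * V + 1, by positivity, ?_⟩
  rintro g ⟨hgm, K, hK, hK'⟩ lam hlam
  have hK0 : 0 ≤ K := (abs_nonneg _).trans (hK 0)
  set f : Pl → ℝ≥0∞ := fun x => ‖g x‖ₑ with hf
  have hfm : Measurable f := hgm.enorm
  set I : ℝ≥0∞ := ∫⁻ x, f x with hI
  -- finiteness
  have hIfin : I ≠ ∞ := by
    have h1 : I ≤ ∫⁻ x : Pl, (Metric.closedBall (0 : Pl) K).indicator (fun _ => ENNReal.ofReal K) x := by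
      refine lintegral_mono fun x => ?_
      by_cases hx : x ∈ Metric.closedBall (0 : Pl) K
      · rw [indicator_of_mem hx, hf]
        simp only
        rw [Real.enorm_eq_ofReal_abs]
        exact ENNReal.ofReal_le_ofReal (hK x)
      · rw [mem_closedBall_zero_iff, not_le] at hx
        simp only [hf]
        rw [hK' x hx]
        simp
    rw [lintegral_indicator Metric.isClosed_closedBall.measurableSet, setLIntegral_const] at h1
    exact (h1.trans_lt (ENNReal.mul_lt_top ENNReal.ofReal_lt_top measure_closedBall_lt_top)).ne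
  set A : Set Pl := {x | ENNReal.ofReal lam < HL ρ g x} with hA
  -- choice of a radius
  have hch : ∀ x : Pl, ∃ k : ℤ, x ∈ A → ENNReal.ofReal lam <
      ENNReal.ofReal ((((2 : ℝ) ^ k) ^ 2)⁻¹) *
        ∫⁻ z in Metric.closedBall x (ρ * (2 : ℝ) ^ k), f z := by
    intro x
    by_cases hx : x ∈ A
    · have hx' : ENNReal.ofReal lam < ⨆ k : ℤ, ∫⁻ w in Metric.closedBall (0 : Pl) ρ,
          ‖g (x - (2 : ℝ) ^ k • w)‖ₑ := hx
      obtain ⟨k, hk⟩ := lt_iSup_iff.1 hx'
      refine ⟨k, fun _ => ?_⟩
      rw [← ball_scale f hfm ρ ((2 : ℝ) ^ k) (by positivity) x]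
      exact hk
    · exact ⟨0, fun h => absurd h hx⟩
  choose k hk using hch
  set r : Pl → ℝ := fun x => ρ * (2 : ℝ) ^ (k x) with hr
  have hr0 : ∀ x, 0 < r x := fun x => by rw [hr]; positivity
  set J : Pl → ℝ≥0∞ := fun x => ∫⁻ z in Metric.closedBall x (r x), f z with hJ
  have hJI : ∀ x, J x ≤ I := fun x => setLIntegral_le_lintegral _ _
  -- the basic inequality
  have hbas : ∀ x ∈ A, ENNReal.ofReal ((r x) ^ 2) ≤ ENNReal.ofReal (ρ ^ 2 / lam) * J x := by
    intro x hx
    have h1 := (hk x hx).le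
    set c : ℝ := ((2 : ℝ) ^ (k x)) ^ 2 with hc
    have hc0 : 0 < c := by rw [hc]; positivity
    have h2 : ENNReal.ofReal ((r x) ^ 2) = ENNReal.ofReal (ρ ^ 2 / lam * c) * ENNReal.ofReal lam := by
      rw [← ENNReal.ofReal_mul (by positivity)]
      congr 1
      rw [hr, hc]
      field_simp
    rw [h2]
    calc ENNReal.ofReal (ρ ^ 2 / lam * c) * ENNReal.ofReal lam
        ≤ ENNReal.ofReal (ρ ^ 2 / lam * c) * (ENNReal.ofReal (c⁻¹) * J x) := by gcongr
      _ = (ENNReal.ofReal (ρ ^ 2 / lam) * (ENNReal.ofReal c * ENNReal.ofReal (c⁻¹))) * J x := by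
          rw [ENNReal.ofReal_mul (by positivity)]
          ring
      _ = ENNReal.ofReal (ρ ^ 2 / lam) * J x := by
          rw [← ENNReal.ofReal_mul hc0.le, mul_inv_cancel₀ hc0.ne', ENNReal.ofReal_one, mul_one]
  -- boundedness of the radii
  have hbd : ∀ x ∈ A, r x ≤ ρ ^ 2 / lam * I.toReal + 1 := by
    intro x hx
    have h1 : ENNReal.ofReal ((r x) ^ 2) ≤ ENNReal.ofReal (ρ ^ 2 / lam) * I :=
      (hbas x hx).trans (by gcongr; exact hJI x)
    rw [← ENNReal.ofReal_toReal hIfin, ← ENNReal.ofReal_mul (by positivity),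
      ENNReal.ofReal_le_ofReal_iff (by positivity)] at h1
    nlinarith [sq_nonneg (r x - 1), hr0 x]
  obtain ⟨u, huA, hdis, hcov⟩ := Vitali.exists_disjoint_subfamily_covering_enlargement_closedBall
    A (fun x : Pl => x) r _ hbd 5 (by norm_num)
  have hucount : u.Countable := by
    refine hdis.countable_of_nonempty_interior fun x _ => ?_
    refine ⟨x, ?_⟩
    exact Metric.ball_subset_interior_closedBall (Metric.mem_ball_self (hr0 x))
  have hsub : A ⊆ ⋃ b ∈ u, Metric.closedBall b (5 * r b) := by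
    intro x hx
    obtain ⟨b, hb, hxb⟩ := hcov x hx
    exact mem_biUnion hb (hxb (Metric.mem_closedBall_self (hr0 x).le))
  have hball : ∀ b ∈ u, volume (Metric.closedBall b (5 * r b)) ≤
      ENNReal.ofReal (25 * ρ ^ 2 * V / lam) * J b := by
    intro b hb
    rw [Measure.addHaar_closedBall volume b (by have := hr0 b; positivity),
      finrank_euclideanSpace_fin, hVe]
    calc ENNReal.ofReal ((5 * r b) ^ 2) * ENNReal.ofReal V
        = ENNReal.ofReal (25 * V) * ENNReal.ofReal ((r b) ^ 2) := by
          rw [← ENNReal.ofReal_mul (by positivity), ← ENNReal.ofReal_mul (by positivity)]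
          congr 1
          ring
      _ ≤ ENNReal.ofReal (25 * V) * (ENNReal.ofReal (ρ ^ 2 / lam) * J b) := by
          gcongr
          exact hbas b (huA hb)
      _ = ENNReal.ofReal (25 * ρ ^ 2 * V / lam) * J b := by
          rw [← mul_assoc, ← ENNReal.ofReal_mul (by positivity)]
          congr 2
          ring
  set μ' : Measure Pl := volume.withDensity f with hμ'
  have hJμ : ∀ b, J b = μ' (Metric.closedBall b (r b)) := fun b =>
    (withDensity_apply f Metric.isClosed_closedBall.measurableSet).symm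
  have hsum : ∑' b : u, J b ≤ I := by
    calc ∑' b : u, J b = ∑' b : u, μ' (Metric.closedBall (b : Pl) (r b)) :=
          tsum_congr fun b => hJμ b
      _ = μ' (⋃ b ∈ u, Metric.closedBall b (r b)) :=
          (measure_biUnion hucount hdis
            (fun b _ => Metric.isClosed_closedBall.measurableSet)).symm
      _ ≤ μ' univ := measure_mono (subset_univ _)
      _ = I := by rw [hμ', withDensity_apply f MeasurableSet.univ, Measure.restrict_univ]
  calc volume A ≤ volume (⋃ b ∈ u, Metric.closedBall b (5 * r b)) := measure_mono hsub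
    _ ≤ ∑' b : u, volume (Metric.closedBall (b : Pl) (5 * r b)) :=
        measure_biUnion_le volume hucount _
    _ ≤ ∑' b : u, ENNReal.ofReal (25 * ρ ^ 2 * V / lam) * J b :=
        ENNReal.tsum_le_tsum fun b => hball b b.2
    _ = ENNReal.ofReal (25 * ρ ^ 2 * V / lam) * ∑' b : u, J b := ENNReal.tsum_mul_left
    _ ≤ ENNReal.ofReal ((25 * ρ ^ 2 * V + 1) / lam) * I := by
        gcongr
        linarith

end Pool.Agent.Helper27.LM
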