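import Mathlib
import Pool.Agent.Helper68.LM.St

/-!
# Module LD of project LM (MP_cb927e_an): dyadic differentiation in the plane
-/

set_option autoImplicit false

open MeasureTheory Set Filter Topology
open scoped ENNReal

namespace Pool.Agent.Helper27.LM

open Pool.Agent.Helper68.LM

/-- the half open square in `Fin 2 → ℝ` -/
def Qp (j : ℤ) (x : Fin 2 → ℝ) : Set (Fin 2 → ℝ) :=
  Set.pi univ fun i => Ico ((2 : ℝ) ^ j * ⌊x i / (2 : ℝ) ^ j⌋) ((2 : ℝ) ^ j * (⌊x i / (2 : ℝ) ^ j⌋ + 1))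

/-- its centre -/
noncomputable def cen (j : ℤ) (x : Fin 2 → ℝ) : Fin 2 → ℝ :=
  fun i => (2 : ℝ) ^ j * (⌊x i / (2 : ℝ) ^ j⌋ + 1 / 2)

theorem DQ_eq (j : ℤ) (x : Pl) : DQ j x = (WithLp.ofLp : Pl → (Fin 2 → ℝ)) ⁻¹' (Qp j x.ofLp) := by
  have h2 : (0 : ℝ) < (2 : ℝ) ^ j := by positivity
  ext z
  simp only [DQ, Qp, mem_ofPred_eq, mem_preimage, mem_univ_pi, mem_Ico]
  refine forall_congr' fun i => ?_
  rw [Int.floor_eq_iff, le_div_iff₀ h2, div_lt_iff₀ h2]
  constructor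
  · rintro ⟨h, h'⟩
    exact ⟨by linarith, by linarith⟩
  · rintro ⟨h, h'⟩
    exact ⟨by linarith, by linarith⟩

theorem meas_Qp (j : ℤ) (x : Fin 2 → ℝ) : MeasurableSet (Qp j x) :=
  MeasurableSet.univ_pi fun _ => measurableSet_Ico

theorem vol_Qp (j : ℤ) (x : Fin 2 → ℝ) : volume (Qp j x) = ENNReal.ofReal ((4 : ℝ) ^ j) := by
  have h2 : (0 : ℝ) < (2 : ℝ) ^ j := by positivity
  rw [Qp, volume_pi_pi]
  simp only [Real.volume_Ico, Fin.prod_univ_two]
  rw [show ∀ a : ℝ, (2 : ℝ) ^ j * (a + 1) - (2 : ℝ) ^ j * a = (2 : ℝ) ^ j from fun a => by ring,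
    show ∀ a : ℝ, (2 : ℝ) ^ j * (a + 1) - (2 : ℝ) ^ j * a = (2 : ℝ) ^ j from fun a => by ring,
    ← ENNReal.ofReal_mul h2.le, ← mul_zpow]
  norm_num

theorem Qp_ae (j : ℤ) (x : Fin 2 → ℝ) :
    (Qp j x : Set (Fin 2 → ℝ)) =ᵐ[volume] Metric.closedBall (cen j x) ((2 : ℝ) ^ j / 2) := by
  have h2 : (0 : ℝ) < (2 : ℝ) ^ j := by positivity
  have e : Metric.closedBall (cen j x) ((2 : ℝ) ^ j / 2) =
      Set.pi univ fun i => Icc ((2 : ℝ) ^ j * ⌊x i / (2 : ℝ) ^ j⌋)
        ((2 : ℝ) ^ j * (⌊x i / (2 : ℝ) ^ j⌋ + 1)) := by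
    rw [closedBall_pi _ (by positivity)]
    refine congrArg _ (funext fun i => ?_)
    rw [Real.closedBall_eq_Icc]
    simp only [cen]
    congr 1 <;> ring
  rw [e]
  exact Measure.pi_Ico_ae_eq_pi_Icc

theorem mem_ball (j : ℤ) (x : Fin 2 → ℝ) :
    x ∈ Metric.closedBall (cen j x) ((2 : ℝ) ^ j / 2) := by
  have h2 : (0 : ℝ) < (2 : ℝ) ^ j := by positivity
  rw [closedBall_pi _ (by positivity)]
  intro i _
  beta_reduce
  rw [Real.closedBall_eq_Icc]
  simp only [cen, mem_Icc]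
  have h1 := Int.floor_le (x i / (2 : ℝ) ^ j)
  have h3 := (Int.lt_floor_add_one (x i / (2 : ℝ) ^ j)).le
  rw [le_div_iff₀ h2] at h1
  rw [div_le_iff₀ h2] at h3
  constructor <;> nlinarith

theorem hLD : StLD := by
  have hmp := PiLp.volume_preserving_ofLp (Fin 2)
  have hme : MeasurableEmbedding (WithLp.ofLp : Pl → (Fin 2 → ℝ)) :=
    (MeasurableEquiv.toLp 2 (Fin 2 → ℝ)).symm.measurableEmbedding
  refine ⟨fun j x => ?_, fun g hg => ?_⟩
  · rw [DQ_eq]
    exact ⟨hmp.measurable (meas_Qp _ _), by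
      rw [hmp.measure_preimage (meas_Qp _ _).nullMeasurableSet, vol_Qp]⟩
  · obtain ⟨hgm, K, hK, hs⟩ := hg
    set G : (Fin 2 → ℝ) → ℝ := fun y => g (WithLp.toLp 2 y) with hG
    have hGm : Measurable G := hgm.comp (PiLp.volume_preserving_toLp (Fin 2)).measurable
    have hloc : LocallyIntegrable G volume := by
      intro y
      refine ⟨Metric.closedBall y 1, Metric.closedBall_mem_nhds _ one_pos, ?_⟩
      refine Measure.integrableOn_of_bounded (M := K) ?_ hGm.aestronglyMeasurable ?_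
      · exact (isCompact_closedBall y 1).measure_lt_top.ne
      · exact Eventually.of_forall fun z => hK _
    have key := IsUnifLocDoublingMeasure.ae_tendsto_average (μ := (volume : Measure (Fin 2 → ℝ)))
      hloc 1
    have key2 : ∀ᵐ x : Pl, ∀ {ι : Type} {l : Filter ι} (w : ι → (Fin 2 → ℝ)) (δ : ι → ℝ)
        (_ : Tendsto δ l (𝓝[>] 0)) (_ : ∀ᶠ j in l, x.ofLp ∈ Metric.closedBall (w j) (1 * δ j)),
        Tendsto (fun j => ⨍ y in Metric.closedBall (w j) (δ j), G y) l (𝓝 (G x.ofLp)) :=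
      hmp.quasiMeasurePreserving.ae key
    filter_upwards [key2] with x hx
    have hx' := hx (ι := ℕ) (l := atTop) (fun j => cen (-(j : ℤ)) x.ofLp)
      (fun j => (2 : ℝ) ^ (-(j : ℤ)) / 2) ?_ ?_
    · have e1 : G x.ofLp = g x := rfl
      rw [e1] at hx'
      refine hx'.congr fun j => ?_
      have hball : (volume : Measure (Fin 2 → ℝ)).real
          (Metric.closedBall (cen (-(j : ℤ)) x.ofLp) ((2 : ℝ) ^ (-(j : ℤ)) / 2)) =
          (4 : ℝ) ^ (-(j : ℤ)) := by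
        rw [Measure.real, ← measure_congr (Qp_ae (-(j : ℤ)) x.ofLp), vol_Qp,
          ENNReal.toReal_ofReal (by positivity)]
      rw [setAverage_eq, hball, smul_eq_mul, DQ_eq]
      congr 1
      rw [← setIntegral_congr_set (Qp_ae (-(j : ℤ)) x.ofLp)]
      rw [← hmp.setIntegral_preimage_emb hme]
    · refine tendsto_nhdsWithin_iff.2 ⟨?_, Eventually.of_forall fun j => ?_⟩
      · have h1 : Tendsto (fun j : ℕ => ((1 : ℝ) / 2) ^ j) atTop (𝓝 0) :=
          tendsto_pow_atTop_nhds_zero_of_lt_one (by norm_num) (by norm_num)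
        have h2 := h1.div_const 2
        rw [zero_div] at h2
        refine h2.congr fun j => ?_
        rw [zpow_neg, zpow_natCast, one_div, inv_pow]
      · exact mem_Ioi.2 (by positivity)
    · refine Eventually.of_forall fun j => ?_
      rw [one_mul]
      exact mem_ball _ _

end Pool.Agent.Helper27.LM
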