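import Pool.Agent.Helper68.LM.St

/-!
# Project LM, module NUM
-/

set_option autoImplicit false

open MeasureTheory Set Filter Topology
open scoped ENNReal RealInnerProductSpace FourierTransform

namespace Pool.Agent.Helper27.LM

open Pool.Agent.Helper68.LM

theorem tsum_w : ∑' i : ℤ, ENNReal.ofReal ((2 : ℝ) ^ (-|i|)) ≤ 4 := by
  set φ : Bool × ℕ → ℤ := fun p => if p.1 then (p.2 : ℤ) else -(p.2 : ℤ) with hφ
  have hs : Function.Surjective φ := by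
    intro i
    rcases le_total 0 i with h | h
    · exact ⟨(true, i.toNat), by simp [hφ, Int.toNat_of_nonneg h]⟩
    · refine ⟨(false, (-i).toNat), ?_⟩
      have : ((-i).toNat : ℤ) = -i := Int.toNat_of_nonneg (by omega)
      simp [hφ, this]
  refine (ENNReal.tsum_le_tsum_comp_of_surjective hs _).trans ?_
  have hp : ∑' x : Bool × ℕ, ENNReal.ofReal ((2 : ℝ) ^ (-|φ x|)) =
      ∑' (b : Bool) (n : ℕ), ENNReal.ofReal ((2 : ℝ) ^ (-|φ (b, n)|)) :=
    ENNReal.tsum_prod (f := fun b n => ENNReal.ofReal ((2 : ℝ) ^ (-|φ (b, n)|)))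
  rw [hp]
  have h1 : ∀ b : Bool, ∑' n : ℕ, ENNReal.ofReal ((2 : ℝ) ^ (-|φ (b, n)|)) = 2 := by
    intro b
    have h2 : ∀ n : ℕ, ENNReal.ofReal ((2 : ℝ) ^ (-|φ (b, n)|)) = (2⁻¹ : ℝ≥0∞) ^ n := by
      intro n
      have h3 : |φ (b, n)| = (n : ℤ) := by
        cases b <;> simp [hφ]
      rw [h3, zpow_neg, zpow_natCast, ENNReal.ofReal_inv_of_pos (by positivity),
        ENNReal.ofReal_pow (by norm_num), ENNReal.inv_pow]
      norm_num
    rw [tsum_congr h2, ENNReal.tsum_geometric, ENNReal.one_sub_inv_two, inv_inv]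
  rw [tsum_congr h1, tsum_bool]
  norm_num

theorem tsum_w' (c : ℤ) : ∑' j : ℤ, ENNReal.ofReal ((2 : ℝ) ^ (-|j - c|)) ≤ 4 := by
  have h := (Equiv.subRight c).tsum_eq (fun i : ℤ => ENNReal.ofReal ((2 : ℝ) ^ (-|i|)))
  simp only [Equiv.subRight_apply] at h
  rw [h]
  exact tsum_w

/-- the four bounds of a term -/
theorem term_bounds (N n : ℕ) (r : ℝ) (hr : 0 < r) (m : ℤ) (hm1 : (2 : ℝ) ^ m ≤ r)
    (hm2 : r < (2 : ℝ) ^ (m + 1)) (k : ℤ) :
    0 ≤ min 1 (2 ^ N / ((2 : ℝ) ^ k * r)) ∧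
    min 1 (2 ^ N / ((2 : ℝ) ^ k * r)) ≤ (2 : ℝ) ^ ((N : ℤ) - (k + m)) ∧
    0 ≤ min 4 ((4 * Real.pi * ((2 : ℝ) ^ (k - (n : ℤ)) * r)) ^ 2) ∧
    min 4 ((4 * Real.pi * ((2 : ℝ) ^ (k - (n : ℤ)) * r)) ^ 2) ≤
      64 * Real.pi ^ 2 * ((2 : ℝ) ^ (k + m - (n : ℤ))) ^ 2 := by
  refine ⟨by positivity, ?_, by positivity, ?_⟩
  · refine (min_le_right _ _).trans ?_
    rw [zpow_sub₀ two_ne_zero, zpow_natCast, zpow_add₀ two_ne_zero]
    gcongr
  · refine (min_le_right _ _).trans ?_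
    have h1 : (2 : ℝ) ^ (k - (n : ℤ)) * r ≤ 2 * (2 : ℝ) ^ (k + m - (n : ℤ)) := by
      calc (2 : ℝ) ^ (k - (n : ℤ)) * r ≤ (2 : ℝ) ^ (k - (n : ℤ)) * (2 : ℝ) ^ (m + 1) := by
            gcongr
        _ = 2 * (2 : ℝ) ^ (k + m - (n : ℤ)) := by
            rw [← zpow_add₀ two_ne_zero, ← zpow_one_add₀ two_ne_zero]
            congr 1
            ring
    have h0 : 0 ≤ (2 : ℝ) ^ (k - (n : ℤ)) * r := by positivity
    calc (4 * Real.pi * ((2 : ℝ) ^ (k - (n : ℤ)) * r)) ^ 2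
        ≤ (4 * Real.pi * (2 * (2 : ℝ) ^ (k + m - (n : ℤ)))) ^ 2 := by
          have := Real.pi_pos
          gcongr
      _ = 64 * Real.pi ^ 2 * ((2 : ℝ) ^ (k + m - (n : ℤ))) ^ 2 := by ring

theorem hNUM : StNUM := by
  have hpi := Real.pi_pos
  refine ⟨256 * Real.pi ^ 2 + 32, by positivity, ?_⟩
  intro N n r hr
  obtain ⟨m, hm1, hm2⟩ := exists_mem_Ico_zpow hr one_lt_two
  have hb := term_bounds N n r hr m hm1 hm2
  refine ⟨?_, ?_⟩
  · intro hn
    -- pointwise bound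
    have hpt : ∀ k : ℤ, ENNReal.ofReal (min 1 (2 ^ N / ((2 : ℝ) ^ k * r)) *
        min 4 ((4 * Real.pi * ((2 : ℝ) ^ (k - (n : ℤ)) * r)) ^ 2)) ≤
        ENNReal.ofReal (64 * Real.pi ^ 2) * ENNReal.ofReal ((2 : ℝ) ^ (-|(k + m) - 0|)) +
        (if k + m ∈ Finset.Ioc (0 : ℤ) N then 4 else 0) +
        4 * ENNReal.ofReal ((2 : ℝ) ^ (-|(k + m) - (N : ℤ)|)) := by
      intro k
      obtain ⟨h1, h2, h3, h4⟩ := hb k
      subst hn
      set j : ℤ := k + m with hj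
      set a := min 1 (2 ^ N / ((2 : ℝ) ^ k * r)) with ha
      set b := min 4 ((4 * Real.pi * ((2 : ℝ) ^ (k - ((0 : ℕ) : ℤ)) * r)) ^ 2) with hbb
      have ha1 : a ≤ 1 := min_le_left _ _
      have hb4 : b ≤ 4 := min_le_left _ _
      rcases le_or_gt j 0 with hj0 | hj0
      · refine le_trans ?_ (le_add_right (le_add_right le_rfl))
        rw [← ENNReal.ofReal_mul (by positivity)]
        refine ENNReal.ofReal_le_ofReal ?_
        have e1 : (2 : ℝ) ^ (-|j - 0|) = (2 : ℝ) ^ j := by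
          rw [sub_zero, abs_of_nonpos hj0, neg_neg]
        rw [e1]
        have e2 : (2 : ℝ) ^ j ≤ 1 := zpow_le_one_of_nonpos₀ one_le_two hj0
        have e3 : 0 < (2 : ℝ) ^ j := by positivity
        have e4 : ((2 : ℝ) ^ (j - ((0 : ℕ) : ℤ))) ^ 2 ≤ (2 : ℝ) ^ j := by
          rw [Nat.cast_zero, sub_zero, sq]
          exact mul_le_of_le_one_left e3.le e2
        calc a * b ≤ 1 * b := by gcongr
          _ = b := one_mul b
          _ ≤ _ := h4
          _ ≤ 64 * Real.pi ^ 2 * (2 : ℝ) ^ j := by gcongr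
      · rcases le_or_gt j (N : ℤ) with hjN | hjN
        · have e1 : (if j ∈ Finset.Ioc (0 : ℤ) N then (4 : ℝ≥0∞) else 0) = 4 :=
            if_pos (Finset.mem_Ioc.2 ⟨hj0, hjN⟩)
          rw [e1]
          refine le_trans ?_ (le_add_right (le_add_left le_rfl))
          have e2 : (4 : ℝ≥0∞) = ENNReal.ofReal 4 := by simp
          rw [e2]
          refine ENNReal.ofReal_le_ofReal ?_
          calc a * b ≤ 1 * 4 := by gcongr
            _ = 4 := one_mul 4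
        · refine le_trans ?_ (le_add_left le_rfl)
          have e2 : (4 : ℝ≥0∞) = ENNReal.ofReal 4 := by simp
          rw [e2, ← ENNReal.ofReal_mul (by positivity)]
          refine ENNReal.ofReal_le_ofReal ?_
          have e1 : (2 : ℝ) ^ (-|j - (N : ℤ)|) = (2 : ℝ) ^ ((N : ℤ) - j) := by
            rw [abs_of_pos (by omega), neg_sub]
          rw [e1]
          calc a * b ≤ (2 : ℝ) ^ ((N : ℤ) - j) * 4 := by gcongr
            _ = 4 * (2 : ℝ) ^ ((N : ℤ) - j) := mul_comm _ _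
    refine (ENNReal.tsum_le_tsum hpt).trans ?_
    rw [ENNReal.tsum_add, ENNReal.tsum_add, ENNReal.tsum_mul_left, ENNReal.tsum_mul_left]
    have s1 : ∑' k : ℤ, ENNReal.ofReal ((2 : ℝ) ^ (-|(k + m) - 0|)) ≤ 4 := by
      have h := (Equiv.addRight m).tsum_eq (fun i : ℤ => ENNReal.ofReal ((2 : ℝ) ^ (-|i - 0|)))
      simp only [Equiv.coe_addRight] at h
      rw [h]
      exact tsum_w' 0
    have s3 : ∑' k : ℤ, ENNReal.ofReal ((2 : ℝ) ^ (-|(k + m) - (N : ℤ)|)) ≤ 4 := by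
      have h := (Equiv.addRight m).tsum_eq
        (fun i : ℤ => ENNReal.ofReal ((2 : ℝ) ^ (-|i - (N : ℤ)|)))
      simp only [Equiv.coe_addRight] at h
      rw [h]
      exact tsum_w' _
    have s2 : ∑' k : ℤ, (if k + m ∈ Finset.Ioc (0 : ℤ) N then (4 : ℝ≥0∞) else 0) = 4 * N := by
      have h : ∑' k : ℤ, (if k + m ∈ Finset.Ioc (0 : ℤ) N then (4 : ℝ≥0∞) else 0) =
          ∑' i : ℤ, (if i ∈ Finset.Ioc (0 : ℤ) N then (4 : ℝ≥0∞) else 0) :=
        (Equiv.addRight m).tsum_eq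
          (fun i : ℤ => if i ∈ Finset.Ioc (0 : ℤ) N then (4 : ℝ≥0∞) else 0)
      rw [h, tsum_eq_sum (s := Finset.Ioc (0 : ℤ) N) (fun j hj => if_neg hj),
        Finset.sum_congr rfl (fun j hj => if_pos hj), Finset.sum_const, Int.card_Ioc]
      simp [mul_comm]
    rw [s2]
    have hN : (N : ℝ≥0∞) = ENNReal.ofReal (N : ℝ) := by simp
    have h4 : (4 : ℝ≥0∞) = ENNReal.ofReal 4 := by simp
    calc ENNReal.ofReal (64 * Real.pi ^ 2) * ∑' k : ℤ, ENNReal.ofReal ((2 : ℝ) ^ (-|(k + m) - 0|)) +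
          4 * (N : ℝ≥0∞) + 4 * ∑' k : ℤ, ENNReal.ofReal ((2 : ℝ) ^ (-|(k + m) - (N : ℤ)|))
        ≤ ENNReal.ofReal (64 * Real.pi ^ 2) * 4 + 4 * (N : ℝ≥0∞) + 4 * 4 := by gcongr
      _ = ENNReal.ofReal (64 * Real.pi ^ 2 * 4 + 4 * N + 4 * 4) := by
          rw [hN, h4, ← ENNReal.ofReal_mul (by positivity), ← ENNReal.ofReal_mul (by positivity),
            ← ENNReal.ofReal_mul (by positivity), ← ENNReal.ofReal_add (by positivity)
              (by positivity), ← ENNReal.ofReal_add (by positivity) (by positivity)]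
      _ ≤ ENNReal.ofReal ((256 * Real.pi ^ 2 + 32) * (N + 1)) := by
          refine ENNReal.ofReal_le_ofReal ?_
          have hN0 : (0 : ℝ) ≤ N := Nat.cast_nonneg N
          nlinarith [mul_nonneg (sq_nonneg Real.pi) hN0]
  · intro hNn
    have hpt : ∀ k : ℤ, ENNReal.ofReal (min 1 (2 ^ N / ((2 : ℝ) ^ k * r)) *
        min 4 ((4 * Real.pi * ((2 : ℝ) ^ (k - (n : ℤ)) * r)) ^ 2)) ≤
        ENNReal.ofReal ((64 * Real.pi ^ 2 + 4) * (2 : ℝ) ^ ((N : ℤ) - n)) *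
          ENNReal.ofReal ((2 : ℝ) ^ (-|(k + m) - (n : ℤ)|)) := by
      intro k
      obtain ⟨h1, h2, h3, h4⟩ := hb k
      set j : ℤ := k + m with hj
      set a := min 1 (2 ^ N / ((2 : ℝ) ^ k * r)) with ha
      set b := min 4 ((4 * Real.pi * ((2 : ℝ) ^ (k - (n : ℤ)) * r)) ^ 2) with hbb
      have hb4 : b ≤ 4 := min_le_left _ _
      rw [← ENNReal.ofReal_mul (by positivity)]
      refine ENNReal.ofReal_le_ofReal ?_
      rcases le_or_gt j (n : ℤ) with hjn | hjn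
      · have e1 : (2 : ℝ) ^ (-|j - (n : ℤ)|) = (2 : ℝ) ^ (j - (n : ℤ)) := by
          rw [abs_of_nonpos (by omega), neg_neg]
        have e2 : (2 : ℝ) ^ ((N : ℤ) - j) * ((2 : ℝ) ^ (j - (n : ℤ))) ^ 2 =
            (2 : ℝ) ^ ((N : ℤ) - n) * (2 : ℝ) ^ (j - (n : ℤ)) := by
          rw [sq, ← mul_assoc, ← zpow_add₀ two_ne_zero]
          congr 2
          ring
        rw [e1]
        calc a * b ≤ (2 : ℝ) ^ ((N : ℤ) - j) * (64 * Real.pi ^ 2 * ((2 : ℝ) ^ (j - (n : ℤ))) ^ 2) := by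
              gcongr
          _ = 64 * Real.pi ^ 2 * ((2 : ℝ) ^ ((N : ℤ) - n) * (2 : ℝ) ^ (j - (n : ℤ))) := by
              rw [← e2]; ring
          _ ≤ (64 * Real.pi ^ 2 + 4) * ((2 : ℝ) ^ ((N : ℤ) - n) * (2 : ℝ) ^ (j - (n : ℤ))) := by
              gcongr
              linarith
          _ = _ := by ring
      · have e1 : (2 : ℝ) ^ (-|j - (n : ℤ)|) = (2 : ℝ) ^ ((n : ℤ) - j) := by
          rw [abs_of_pos (by omega), neg_sub]
        have e2 : (2 : ℝ) ^ ((N : ℤ) - j) =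
            (2 : ℝ) ^ ((N : ℤ) - n) * (2 : ℝ) ^ ((n : ℤ) - j) := by
          rw [← zpow_add₀ two_ne_zero]
          congr 1
          ring
        rw [e1]
        calc a * b ≤ (2 : ℝ) ^ ((N : ℤ) - j) * 4 := by gcongr
          _ = 4 * ((2 : ℝ) ^ ((N : ℤ) - n) * (2 : ℝ) ^ ((n : ℤ) - j)) := by rw [e2]; ring
          _ ≤ (64 * Real.pi ^ 2 + 4) * ((2 : ℝ) ^ ((N : ℤ) - n) * (2 : ℝ) ^ ((n : ℤ) - j)) := by
              gcongr
              have : 0 < 64 * Real.pi ^ 2 := by positivity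
              linarith
          _ = _ := by ring
    refine (ENNReal.tsum_le_tsum hpt).trans ?_
    rw [ENNReal.tsum_mul_left]
    have s1 : ∑' k : ℤ, ENNReal.ofReal ((2 : ℝ) ^ (-|(k + m) - (n : ℤ)|)) ≤ 4 := by
      have h := (Equiv.addRight m).tsum_eq
        (fun i : ℤ => ENNReal.ofReal ((2 : ℝ) ^ (-|i - (n : ℤ)|)))
      simp only [Equiv.coe_addRight] at h
      rw [h]
      exact tsum_w' _
    have h4 : (4 : ℝ≥0∞) = ENNReal.ofReal 4 := by simp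
    calc ENNReal.ofReal ((64 * Real.pi ^ 2 + 4) * (2 : ℝ) ^ ((N : ℤ) - n)) *
          ∑' k : ℤ, ENNReal.ofReal ((2 : ℝ) ^ (-|(k + m) - (n : ℤ)|))
        ≤ ENNReal.ofReal ((64 * Real.pi ^ 2 + 4) * (2 : ℝ) ^ ((N : ℤ) - n)) * 4 := by gcongr
      _ = ENNReal.ofReal ((64 * Real.pi ^ 2 + 4) * (2 : ℝ) ^ ((N : ℤ) - n) * 4) := by
          rw [h4, ← ENNReal.ofReal_mul (by positivity)]
      _ ≤ ENNReal.ofReal ((256 * Real.pi ^ 2 + 32) * (2 : ℝ) ^ ((N : ℤ) - n)) := by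
          refine ENNReal.ofReal_le_ofReal ?_
          have : 0 < (2 : ℝ) ^ ((N : ℤ) - n) := by positivity
          nlinarith

end Pool.Agent.Helper27.LM
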